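import Pool.Agent.MP_ff5407_an.H58R.All

open scoped ContDiff Manifold NNReal
open MeasureTheory Pool.Agent.MP_ff5407_an.H58

/-- A closed oriented surface of genus three carries, for every `β < 1/2`, a Riemannian metric of
class `C^{1,β}`, smooth off a closed null set, whose geodesic flow is a well defined continuous flow
preserving the Liouville measure, with zero Liouville entropy. -/
theorem Pool.Agent.Results.MP_ff5407_an.LowRegularity.result :
    ∃ (M : Type) (_ : TopologicalSpace M) (_ : T2Space M) (_ : CompactSpace M)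
      (_ : ConnectedSpace M) (_ : ChartedSpace ℂ M) (_ : IsManifold 𝓘(ℝ, ℂ) ∞ M),
      Oriented M ∧ HasGenus M 3 ∧ ∀ β : ℝ≥0, β < 1 / 2 → ∃ m : Met β M, m.SmoothAE ∧
        ∃ Φ : Flow ℝ m.UT, (∀ v, m.IsGeod fun t => Φ t v) ∧
          (∀ V, m.IsGeod V → ∀ t, V t = Φ t (V 0)) ∧
          ∃ μ : Measure m.UT, IsProbabilityMeasure μ ∧ m.IsLiouville μ ∧
            (∀ t, MeasurePreserving (Φ t) μ μ) ∧ ZeroEntropy μ (Φ 1) := by
  obtain ⟨M, i1, i2, i3, i4, i5, i6, h1, h2, h3⟩ := Pool.Agent.MP_ff5407_an.H58.final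
  refine ⟨M, i1, i2, i3, i4, i5, i6, h1, h2, fun β hβ => ?_⟩
  obtain ⟨m, k1, Φ, k2, k3, μ, k4, k5, k6, k7⟩ := h3 β hβ
  exact ⟨m, k1, Φ, fun v => (m.isGeod_iff _).2 (k2 v), fun V hV => k3 V ((m.isGeod_iff V).1 hV),
    μ, k4, k5, k6, k7⟩
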